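import Pool.Agent.REV.StmtsP3

set_option autoImplicit false

namespace Pool.Agent.REV.H34

open Set MeasureTheory Filter
open scoped Topology

/-- Row PMB: for a fixed density `c^3 RB` is nondecreasing (`n = 3`). -/
theorem pmb (pin : PinStmt) (pub : PubStmt) (pfo : PfoStmt) (peq : PeqStmt) (pst : PstStmt)
    (pzr : PzrStmt) (hlx : HlxStmt) : PmbStmt := by
  intro C f hf hC
  obtain ⟨K, hK, hL⟩ := hlx C f hf hC
  obtain ⟨p, hp, hmono⟩ := pst K f hK hf.cont hf.pos hL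
  obtain ⟨M, hU⟩ := pub f hf.cont hf.pos
  have hE := peq C f hf
  have hA : AntitoneOn (uU f) (Ioi 0) := pzr C M p (uU f) hC hp hU hE hmono
  have hV : ∀ k k' : ℝ, 0 ≤ k → k ≤ k' → vV (uU f) k' ≤ vV (uU f) k := by
    intro k k' hk hkk
    unfold vV
    refine setIntegral_mono_on (pin M _ hU k' (hk.trans hkk)).1 (pin M _ hU k hk).1
      measurableSet_Ioi ?_
    intro τ hτ
    have hτ' : 0 < τ := hτ
    have h2 : k ^ 2 ≤ k' ^ 2 := pow_le_pow_left₀ hk hkk 2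
    exact hA (mem_Ioi.2 (Real.sqrt_pos.2 (by positivity)))
      (mem_Ioi.2 (Real.sqrt_pos.2 (by positivity))) (Real.sqrt_le_sqrt (by linarith))
  have hF : ∀ c ∈ Ioc (0 : ℝ) 1, c ^ 3 * RB 3 f c = vV (uU f) (Real.sqrt (1 - c ^ 2) / c) :=
    fun c hc => (pfo f hf.cont c hc).1
  have hpos : ∀ c ∈ Ioc (0 : ℝ) 1, 0 < vV (uU f) (Real.sqrt (1 - c ^ 2) / c) := fun c hc =>
    (pin M _ hU _ (div_nonneg (Real.sqrt_nonneg _) hc.1.le)).2.2.1
  intro c hc c' hc' hcc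
  show c ^ 3 * RB 3 f c ≤ c' ^ 3 * RB 3 f c'
  rcases eq_or_lt_of_le hc.1 with h0 | h0
  · rw [← h0]
    rcases eq_or_lt_of_le hc'.1 with h1 | h1
    · rw [← h1]
    · have h2 : c' ∈ Ioc (0 : ℝ) 1 := ⟨h1, hc'.2⟩
      rw [hF c' h2]
      have h3 := hpos c' h2
      have h4 : (0 : ℝ) ^ 3 * RB 3 f 0 = 0 := by norm_num
      rw [h4]
      exact h3.le
  · have h1 : 0 < c' := h0.trans_le hcc
    rw [hF c ⟨h0, hc.2⟩, hF c' ⟨h1, hc'.2⟩]
    have h2 : c ^ 2 ≤ c' ^ 2 := pow_le_pow_left₀ h0.le hcc 2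
    exact hV _ _ (div_nonneg (Real.sqrt_nonneg _) h1.le)
      (div_le_div₀ (Real.sqrt_nonneg _) (Real.sqrt_le_sqrt (by linarith)) h0 hcc)

end Pool.Agent.REV.H34
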